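import Pool.Agent.Helper82.AH.Props
import Pool.Agent.Helper82.AH.Basic

/-!
# MP_b55b7c_an: packet AH-TB, the trace of an element of small rank
-/

open scoped ENNReal NNReal InnerProductSpace ComplexOrder
open Filter Topology

attribute [-instance] CStarMatrix.instAlgebra CStarMatrix.instModule CStarMatrix.instSMul
  CStarMatrix.instMulAction CStarMatrix.instDistribMulAction

set_option linter.unusedSectionVars false

noncomputable section
namespace RC
universe u

/-! ### Matrices -/

section mat7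
variable {N : ℕ}

theorem tb7_mat_mul (a b : Mt N) : (a * b).mat = a.mat * b.mat := rfl

theorem tb7_mat_sub (a b : Mt N) : (a - b).mat = a.mat - b.mat := rfl

theorem tb7_mat_one : (1 : Mt N).mat = 1 := rfl

theorem tb7_mat_star (a : Mt N) : (star a).mat = a.mat.conjTranspose := rfl

theorem tb7_mat_smul (c : ℂ) (a : Mt N) : (c • a).mat = c • a.mat := rfl

theorem tb7_mat_inj {a b : Mt N} (h : a.mat = b.mat) : a = b := h

theorem tb7_psd (a : Mt N) (ha : 0 ≤ a) : a.mat.PosSemidef := by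
  obtain ⟨b, rfl⟩ := CStarAlgebra.nonneg_iff_eq_star_mul_self.1 ha
  exact Matrix.posSemidef_conjTranspose_mul_self (b.mat : Matrix (Fin N) (Fin N) ℂ)

theorem tb7_trM_eq {a : Mt N} (hH : a.mat.IsHermitian) : trM a = ∑ i, hH.eigenvalues i := by
  unfold trM
  rw [hH.trace_eq_sum_eigenvalues, Complex.re_sum]
  exact Finset.sum_congr rfl fun i _ => Complex.ofReal_re _

theorem tb7_trC_eq {a : Mt N} (hH : a.mat.IsHermitian) : a.mat.trace = (trM a : ℂ) := by
  rw [tb7_trM_eq hH, hH.trace_eq_sum_eigenvalues]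
  push_cast
  rfl

theorem tb7_rk_eq {a : Mt N} (hH : a.mat.IsHermitian) :
    (rkM a : ℝ) = ∑ i, if hH.eigenvalues i ≠ 0 then (1 : ℝ) else 0 := by
  unfold rkM
  rw [hH.rank_eq_card_non_zero_eigs, Fintype.card_subtype, Finset.sum_boole]

theorem tb7_vec {a : Matrix (Fin N) (Fin N) ℂ} (hH : a.IsHermitian) (i : Fin N) :
    star (hH.eigenvectorBasis i : Fin N → ℂ) ⬝ᵥ (hH.eigenvectorBasis i : Fin N → ℂ) = 1 := by
  have h1 := (hH.eigenvectorBasis).orthonormal.1 i
  have h2 := EuclideanSpace.inner_eq_star_dotProduct (hH.eigenvectorBasis i) (hH.eigenvectorBasis i)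
  rw [inner_self_eq_norm_sq_to_K, h1] at h2
  rw [dotProduct_comm]
  rw [← h2]
  simp

theorem tb7_eig_le_one {a : Mt N} (hH : a.mat.IsHermitian) (h1 : a ≤ 1) (i : Fin N) :
    hH.eigenvalues i ≤ 1 := by
  have hq : (1 - a.mat).PosSemidef := tb7_psd (1 - a) (sub_nonneg.2 h1)
  have h2 := hq.dotProduct_mulVec_nonneg (hH.eigenvectorBasis i : Fin N → ℂ)
  rw [Matrix.sub_mulVec, Matrix.one_mulVec, hH.mulVec_eigenvectorBasis, dotProduct_sub,
    dotProduct_smul, tb7_vec] at h2
  have h3 := (Complex.le_def.1 h2).1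
  simp at h3
  exact h3

theorem tb7_tr_le_rk (a : Mt N) (h0 : 0 ≤ a) (h1 : a ≤ 1) : trM a ≤ rkM a := by
  have hp := tb7_psd a h0
  have hH := hp.isHermitian
  rw [tb7_trM_eq hH, tb7_rk_eq hH]
  refine Finset.sum_le_sum fun i _ => ?_
  split_ifs with h
  · exact tb7_eig_le_one hH h1 i
  · rw [not_not] at h
    rw [h]

theorem tb7_tr_nonneg (a : Mt N) (h0 : 0 ≤ a) : 0 ≤ trM a := by
  have hp := tb7_psd a h0
  exact (Complex.le_def.1 hp.trace_nonneg).1

theorem tb7_tr_zero (a : Mt N) (h0 : 0 ≤ a) (h : trM a = 0) : a = 0 := by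
  have hp := tb7_psd a h0
  have hH := hp.isHermitian
  have h1 : hH.eigenvalues = 0 := by
    rw [tb7_trM_eq hH] at h
    funext i
    exact (Finset.sum_eq_zero_iff_of_nonneg fun j _ => hp.eigenvalues_nonneg j).1 h i
      (Finset.mem_univ i)
  exact tb7_mat_inj (hH.eigenvalues_eq_zero_iff.1 h1)

/-- The trace of a projection is a natural number. -/
theorem tb7_proj (p : Mt N) (hp : IsStarProjection p) : trM p = rkM p := by
  have hsa := hp.isSelfAdjoint
  have hH : p.mat.IsHermitian := hsa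
  have hid : p.mat * p.mat = p.mat := hp.isIdempotentElem
  rw [tb7_trM_eq hH, tb7_rk_eq hH]
  refine Finset.sum_congr rfl fun i _ => ?_
  have h1 : hH.eigenvalues i * hH.eigenvalues i = hH.eigenvalues i := by
    have h2 := hH.mulVec_eigenvectorBasis i
    have h3 : p.mat.mulVec (p.mat.mulVec (hH.eigenvectorBasis i : Fin N → ℂ)) =
        p.mat.mulVec (hH.eigenvectorBasis i : Fin N → ℂ) := by
      rw [Matrix.mulVec_mulVec, hid]
    rw [h2, Matrix.mulVec_smul, h2, smul_smul] at h3
    have h4 := congrArg (fun v => star (hH.eigenvectorBasis i : Fin N → ℂ) ⬝ᵥ v) h3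
    simp only [dotProduct_smul, tb7_vec] at h4
    have h5 := congrArg Complex.re h4
    simpa using h5
  split_ifs with h
  · exact mul_left_cancel₀ h (by rw [h1, mul_one])
  · rw [not_not] at h
    exact h

/-- The matrix units. -/
def eM7 (k l : Fin N) : Mt N := CStarMatrix.ofMatrix (Matrix.single k l (1 : ℂ))

/-- The underlying matrix, as a homomorphism. -/
def matH7 (N : ℕ) : Mt N →+ Matrix (Fin N) (Fin N) ℂ where
  toFun := Mt.mat
  map_zero' := rfl
  map_add' _ _ := rfl

theorem tb7_sum_single (X : Mt N) :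
    ∑ k, ∑ l, eM7 k l * X * eM7 l k = X.mat.trace • (1 : Mt N) := by
  have h : ∀ k l : Fin N, matH7 N (eM7 k l * X * eM7 l k) =
      Matrix.single k k (X.mat l l) := by
    intro k l
    have := Matrix.single_mul_mul_single k l l k (1 : ℂ) X.mat (1 : ℂ)
    rw [one_mul, mul_one] at this
    exact this
  have h2 : matH7 N (∑ k, ∑ l, eM7 k l * X * eM7 l k) = matH7 N (X.mat.trace • (1 : Mt N)) := by
    rw [map_sum]
    simp only [map_sum, h]
    show _ = X.mat.trace • (1 : Matrix (Fin N) (Fin N) ℂ)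
    ext i j
    rw [Matrix.sum_apply, Finset.sum_eq_single i]
    · rw [Matrix.sum_apply, Matrix.smul_apply, Matrix.one_apply]
      simp only [Matrix.single_apply, true_and]
      by_cases hij : i = j
      · rw [if_pos hij, smul_eq_mul, mul_one]
        simp only [hij, if_true]
        rfl
      · rw [if_neg hij, smul_zero]
        exact Finset.sum_eq_zero fun l _ => if_neg hij
    · intro k _ hk
      rw [Matrix.sum_apply]
      refine Finset.sum_eq_zero fun l _ => ?_
      rw [Matrix.single_apply, if_neg fun h => hk h.1]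
    · intro h
      exact absurd (Finset.mem_univ _) h
  exact tb7_mat_inj h2

theorem tb7_csmul_nonneg (r : ℝ) (hr : 0 ≤ r) (P : Mt N) (hP : 0 ≤ P) : 0 ≤ (r : ℂ) • P := by
  rw [Complex.coe_smul]
  exact smul_nonneg hr hP

end mat7

/-! ### The trace identity -/

section tr7
variable {A : Type u} [CStarAlgebra A] [PartialOrder A] [StarOrderedRing A]

/-- Constant matrix units. -/
def eC7 (H : HCor A) (k l : Fin H.N) : C(H.X, Mt H.N) := ContinuousMap.const _ (eM7 k l)

/-- Matrix units compressed to the corner. -/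
def uC7 (H : HCor A) (k l : Fin H.N) : C(H.X, Mt H.N) := H.p * eC7 H k l * H.p

theorem uC7_corner (H : HCor A) (k l : Fin H.N) : H.p * uC7 H k l * H.p = uC7 H k l := by
  unfold uC7
  rw [← mul_assoc, ← mul_assoc, H.p_p, mul_assoc (H.p * eC7 H k l), H.p_p]

theorem tb7_swap (φ : TState A) (H : HCor A) (b : C(H.X, Mt H.N)) (k l : Fin H.N) :
    φ.φ (H.ψ (uC7 H k l * b * uC7 H l k)) = φ.φ (H.ψ (uC7 H l k * (uC7 H k l * b))) := by
  rw [H.psi_mul' _ _ (uC7_corner H l k), φ.trace, H.psi_mul _ _ (uC7_corner H l k)]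

theorem tb7_ident (φ : TState A) (H : HCor A) (b g₁ g₂ : C(H.X, Mt H.N))
    (hb : H.p * b * H.p = b) (h₁ : ∀ x, g₁ x = (b x).mat.trace • H.p x)
    (h₂ : ∀ x, g₂ x = (H.p x).mat.trace • b x) :
    φ.φ (H.ψ g₁) = φ.φ (H.ψ g₂) := by
  have e1 : g₁ = ∑ k, ∑ l, uC7 H k l * b * uC7 H l k := by
    ext1 x
    rw [h₁ x]
    have hpp : H.p x * H.p x = H.p x := (H.proj x).isIdempotentElem
    have hbx : H.p x * b x * H.p x = b x := congrArg (fun f => f x) hb
    have e3 : (∑ k, ∑ l, uC7 H k l * b * uC7 H l k) x =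
        H.p x * (∑ k, ∑ l, eM7 k l * b x * eM7 l k) * H.p x := by
      rw [ContinuousMap.sum_apply, Finset.mul_sum, Finset.sum_mul]
      refine Finset.sum_congr rfl fun k _ => ?_
      rw [ContinuousMap.sum_apply, Finset.mul_sum, Finset.sum_mul]
      refine Finset.sum_congr rfl fun l _ => ?_
      show H.p x * eM7 k l * H.p x * b x * (H.p x * eM7 l k * H.p x) = _
      conv_rhs => rw [← hbx]
      simp only [mul_assoc]
    rw [e3, tb7_sum_single, mul_smul_comm, smul_mul_assoc, mul_one, hpp]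
  have e2 : g₂ = ∑ k, ∑ l, uC7 H l k * (uC7 H k l * b) := by
    ext1 x
    rw [h₂ x]
    have hpp : H.p x * H.p x = H.p x := (H.proj x).isIdempotentElem
    have hbx : H.p x * b x * H.p x = b x := congrArg (fun f => f x) hb
    have hpb : H.p x * b x = b x := by
      rw [← hbx, ← mul_assoc, ← mul_assoc, hpp]
    have e3 : (∑ k, ∑ l, uC7 H l k * (uC7 H k l * b)) x =
        H.p x * (∑ l, ∑ k, eM7 l k * H.p x * eM7 k l) * H.p x * b x := by
      have e4 : (∑ k, ∑ l, uC7 H l k * (uC7 H k l * b)) x =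
          ∑ k, ∑ l, H.p x * (eM7 l k * H.p x * eM7 k l) * H.p x * b x := by
        rw [ContinuousMap.sum_apply]
        refine Finset.sum_congr rfl fun k _ => ?_
        rw [ContinuousMap.sum_apply]
        refine Finset.sum_congr rfl fun l _ => ?_
        show H.p x * eM7 l k * H.p x * (H.p x * eM7 k l * H.p x * b x) = _
        calc H.p x * eM7 l k * H.p x * (H.p x * eM7 k l * H.p x * b x)
            = H.p x * eM7 l k * (H.p x * H.p x) * eM7 k l * H.p x * b x := by
              simp only [mul_assoc]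
          _ = H.p x * (eM7 l k * H.p x * eM7 k l) * H.p x * b x := by
              rw [hpp]
              simp only [mul_assoc]
      rw [e4, Finset.sum_comm, Finset.mul_sum, Finset.sum_mul, Finset.sum_mul]
      refine Finset.sum_congr rfl fun l _ => ?_
      rw [Finset.mul_sum, Finset.sum_mul, Finset.sum_mul]
    rw [e3, tb7_sum_single, mul_smul_comm, smul_mul_assoc, smul_mul_assoc, mul_one, hpp, hpb]
  rw [e1, e2, map_sum, map_sum, map_sum, map_sum]
  refine Finset.sum_congr rfl fun k _ => ?_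
  rw [map_sum, map_sum, map_sum, map_sum]
  exact Finset.sum_congr rfl fun l _ => tb7_swap φ H b k l

end tr7

/-- `r ↦ r / max(r, 1)^2`, which is `1 / r` at the positive integers. -/
def inv7 (r : ℝ) : ℝ := r / (max r 1) ^ 2

theorem inv7_cont : Continuous inv7 := by
  unfold inv7
  refine Continuous.div continuous_id (by fun_prop) fun r => ?_
  have : 0 < max r 1 := lt_max_of_lt_right one_pos
  positivity

theorem inv7_nonneg {r : ℝ} (hr : 0 ≤ r) : 0 ≤ inv7 r := by
  unfold inv7
  positivity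

theorem inv7_nat (n : ℕ) (hn : (n : ℝ) ≠ 0) : (n : ℝ) * inv7 n = 1 := by
  have h1 : (1 : ℝ) ≤ n := by
    have : n ≠ 0 := fun h => hn (by rw [h, Nat.cast_zero])
    exact_mod_cast Nat.one_le_iff_ne_zero.2 this
  unfold inv7
  rw [max_eq_left h1]
  field_simp

theorem inv7_nat_le (n : ℕ) : (n : ℝ) * inv7 n ≤ 1 := by
  by_cases h : (n : ℝ) = 0
  · rw [h, zero_mul]
    exact zero_le_one
  · exact (inv7_nat n h).le

theorem trM7_cont {N : ℕ} {X : Type} [TopologicalSpace X] (f : C(X, Mt N)) :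
    Continuous fun x => trM (f x) := by
  have h : (fun x => trM (f x)) = fun x => ∑ i, ((f x).mat i i).re := by
    funext x
    show ((f x).mat.trace).re = _
    unfold Matrix.trace
    rw [Complex.re_sum]
    rfl
  rw [h]
  refine continuous_finsetSum _ fun i _ => ?_
  refine Complex.continuous_re.comp ?_
  have h2 : Continuous fun m : Mt N => m.mat i i := by
    have h3 : Continuous fun m : CStarMatrix (Fin N) (Fin N) ℂ =>
        (CStarMatrix.ofMatrixL (m := Fin N) (n := Fin N) (A := ℂ)).symm m i i :=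
      (continuous_apply_apply i i).comp
        (CStarMatrix.ofMatrixL (m := Fin N) (n := Fin N) (A := ℂ)).symm.continuous
    exact h3
  exact h2.comp f.continuous

theorem tb7 : TrBdP.{u} := by
  intro A _ _ _ φ H χ θ hθ hχ h01 hrk
  have hproj := fun x => tb7_proj (H.p x) (H.proj x)
  have hp0 : ∀ x, 0 ≤ H.p x := fun x => (H.proj x).nonneg
  have hcont : Continuous fun x => (inv7 (trM (H.p x)) : ℂ) • χ x :=
    (Complex.continuous_ofReal.comp (inv7_cont.comp (trM7_cont H.p))).smul χ.continuous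
  set b : C(H.X, Mt H.N) := ⟨fun x => (inv7 (trM (H.p x)) : ℂ) • χ x, hcont⟩ with hb
  have hbx : ∀ x, b x = (inv7 (trM (H.p x)) : ℂ) • χ x := fun x => rfl
  have hc : Continuous fun x => inv7 (trM (H.p x)) * trM (χ x) :=
    (inv7_cont.comp (trM7_cont H.p)).mul (trM7_cont χ)
  set g₁ : C(H.X, Mt H.N) := ⟨fun x => ((inv7 (trM (H.p x)) * trM (χ x) : ℝ) : ℂ) • H.p x,
    (Complex.continuous_ofReal.comp hc).smul H.p.continuous⟩ with hg₁
  have hg₁x : ∀ x, g₁ x = ((inv7 (trM (H.p x)) * trM (χ x) : ℝ) : ℂ) • H.p x := fun x => rfl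
  have hbc : H.p * b * H.p = b := by
    ext1 x
    have hx : H.p x * χ x * H.p x = χ x := congrArg (fun f => f x) hχ
    show H.p x * b x * H.p x = b x
    rw [hbx, mul_smul_comm, smul_mul_assoc, hx]
  have key : φ.φ (H.ψ g₁) = φ.φ (H.ψ χ) := by
    refine tb7_ident φ H b g₁ χ hbc (fun x => ?_) fun x => ?_
    · rw [hg₁x, hbx, tb7_mat_smul, Matrix.trace_smul,
        tb7_trC_eq (tb7_psd _ (h01 x).1).isHermitian, smul_eq_mul]
      push_cast
      rfl
    · rw [hbx, tb7_trC_eq (tb7_psd _ (hp0 x)).isHermitian, smul_smul, ← Complex.ofReal_mul]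
      by_cases h0 : trM (H.p x) = 0
      · have h1 : H.p x = 0 := tb7_tr_zero _ (hp0 x) h0
        have h2 : χ x = 0 := by
          have hx : H.p x * χ x * H.p x = χ x := congrArg (fun f => f x) hχ
          rw [← hx, h1, zero_mul, zero_mul]
        rw [h2, smul_zero]
      · have h1 : trM (H.p x) * inv7 (trM (H.p x)) = 1 := by
          rw [hproj x] at h0 ⊢
          exact inv7_nat _ h0
        rw [h1, Complex.ofReal_one, one_smul]
  have hle : ∀ x, g₁ x ≤ ((θ : ℂ) • H.p) x := by
    intro x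
    have h1 : inv7 (trM (H.p x)) * trM (χ x) ≤ θ := by
      have a1 : trM (χ x) ≤ θ * trM (H.p x) :=
        (tb7_tr_le_rk _ (h01 x).1 (h01 x).2).trans (hrk x)
      have a2 : 0 ≤ inv7 (trM (H.p x)) := inv7_nonneg (tb7_tr_nonneg _ (hp0 x))
      have a3 : trM (H.p x) * inv7 (trM (H.p x)) ≤ 1 := by
        rw [hproj x]
        exact inv7_nat_le _
      calc inv7 (trM (H.p x)) * trM (χ x) ≤ inv7 (trM (H.p x)) * (θ * trM (H.p x)) :=
            mul_le_mul_of_nonneg_left a1 a2
        _ = θ * (trM (H.p x) * inv7 (trM (H.p x))) := by ring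
        _ ≤ θ * 1 := mul_le_mul_of_nonneg_left a3 hθ
        _ = θ := mul_one θ
    rw [← sub_nonneg]
    have h2 : ((θ : ℂ) • H.p) x - g₁ x =
        ((θ - inv7 (trM (H.p x)) * trM (χ x) : ℝ) : ℂ) • H.p x := by
      rw [hg₁x, Complex.ofReal_sub, sub_smul]
      rfl
    rw [h2]
    exact tb7_csmul_nonneg _ (sub_nonneg.2 h1) _ (hp0 x)
  have hmono : H.ψ g₁ ≤ (θ : ℂ) • H.ψ 1 := by
    rw [H.psi_one, ← map_smul]
    exact H.psi_mono _ _ hle
  have h3 : 0 ≤ φ.φ ((θ : ℂ) • H.ψ 1 - H.ψ g₁) := φ.nonneg _ (sub_nonneg.2 hmono)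
  rw [map_sub, map_smul, key, smul_eq_mul] at h3
  have h4 := (Complex.le_def.1 h3).1
  rw [Complex.zero_re, Complex.sub_re, Complex.re_ofReal_mul] at h4
  linarith

end RC
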